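import Pool.Agent.D0H65.MW.RemA

/-! Project MW, P9: the remainder after the cut-off is negligible. -/

set_option autoImplicit false
open Complex Filter Topology MeasureTheory Set
open Pool.Agent.H24R2.DZ (cc rr bb MM)
open Pool.Agent.D0H44.MW

namespace Pool.Agent.D0H65.MW

/-- small arguments: the theta series -/
theorem th_small {q : ℕ} [NeZero q] (hq : q.Prime) (χ : DirichletCharacter ℂ q) (h1 : χ ≠ 1) (hχ : χ.Even)
    (m : ℕ) (hm : 1 ≤ m) (z δ : ℝ) (hz : 0 < z) (hδ : q * z ≤ δ) :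
    ‖th χ z‖ ≤ 2 * m.factorial * (Real.sqrt q * δ ^ (2 * m - 1)) := by
  have hq0 : (0 : ℝ) < q := by exact_mod_cast NeZero.pos q
  have hs0 : 0 < Real.sqrt q := Real.sqrt_pos.2 hq0
  refine (th_zero hq χ h1 hχ m hm z hz).trans ?_
  have e1 : (q * z) ^ (2 * m) = (q * z) * (q * z) ^ (2 * m - 1) := by
    rw [← pow_succ']
    congr 1
    omega
  have e2 : 1 / (Real.sqrt q * z) * (2 * (m.factorial * (q * z) ^ (2 * m))) =
      2 * m.factorial * (Real.sqrt q * (q * z) ^ (2 * m - 1)) := by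
    rw [e1]
    have hs : (q : ℝ) = Real.sqrt q ^ 2 := (Real.sq_sqrt hq0.le).symm
    generalize (q * z) ^ (2 * m - 1) = w
    rw [hs, Real.sqrt_sq hs0.le]
    field_simp
  rw [e2]
  gcongr

theorem FF_small {q : ℕ} [NeZero q] (hq : q.Prime) (χ : DirichletCharacter ℂ q) (h1 : χ ≠ 1) (hχ : χ.Even)
    (y : ℕ) (b : ℕ → ℂ) (hb : ∀ h, ‖b h‖ ≤ 1) (m : ℕ) (hm : 1 ≤ m) (x δ : ℝ) (hx : 0 < x)
    (hδ : q * (y * x) ≤ δ) :
    ‖FF χ y b x‖ ≤ y * (2 * m.factorial * (Real.sqrt q * δ ^ (2 * m - 1))) := by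
  have hq0 : (0 : ℝ) < q := by exact_mod_cast NeZero.pos q
  unfold FF
  refine (norm_sum_le _ _).trans ?_
  have key : ∀ h ∈ Finset.Icc 1 y, ‖b h * χ (h : ZMod q) * th χ (h * x)‖ ≤
      2 * m.factorial * (Real.sqrt q * δ ^ (2 * m - 1)) := by
    intro h hh
    obtain ⟨hh1, hh2⟩ := Finset.mem_Icc.1 hh
    have hh0 : (0 : ℝ) < h := by exact_mod_cast hh1
    have hhy : (h : ℝ) ≤ y := by exact_mod_cast hh2
    rw [norm_mul, norm_mul]
    have a2 := DirichletCharacter.norm_le_one χ (h : ZMod q)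
    have a3 := th_small hq χ h1 hχ m hm (h * x) δ (by positivity) (by
      refine le_trans ?_ hδ
      gcongr)
    calc ‖b h‖ * ‖χ (h : ZMod q)‖ * ‖th χ (h * x)‖ ≤ 1 * 1 * (2 * m.factorial * (Real.sqrt q * δ ^ (2 * m - 1))) := by
          gcongr
          exact hb h
      _ = _ := by ring
  refine (Finset.sum_le_card_nsmul _ _ _ key).trans (le_of_eq ?_)
  rw [nsmul_eq_mul, Nat.card_Icc, Nat.add_sub_cancel]

/-- the second sum of `JJ` -/
theorem snd_small {q : ℕ} [NeZero q] (hq : q.Prime) (χ : DirichletCharacter ℂ q) (h1 : χ ≠ 1) (hχ : χ.Even)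
    (y : ℕ) (b : ℕ → ℂ) (hb : ∀ h, ‖b h‖ ≤ 1) (m : ℕ) (hm : 1 ≤ m) (Y x δ : ℝ) (hx : 0 < x) (hY : 0 ≤ Y)
    (hδ0 : 0 ≤ δ) (hδ : q * (y * (Y * x)) ≤ δ) :
    ‖∑ d ∈ Finset.Icc 1 ⌊Y⌋₊, (ArithmeticFunction.vonMangoldt d : ℂ) * χ (d : ZMod q) * FF χ y b (d * x)‖ ≤
      Y * (Y * (y * (2 * m.factorial * (Real.sqrt q * δ ^ (2 * m - 1))))) := by
  have hq0 : (0 : ℝ) < q := by exact_mod_cast NeZero.pos q
  refine (norm_sum_le _ _).trans ?_
  have key : ∀ d ∈ Finset.Icc 1 ⌊Y⌋₊, ‖(ArithmeticFunction.vonMangoldt d : ℂ) * χ (d : ZMod q) * FF χ y b (d * x)‖ ≤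
      Y * (y * (2 * m.factorial * (Real.sqrt q * δ ^ (2 * m - 1)))) := by
    intro d hd
    obtain ⟨hh1, hh2⟩ := Finset.mem_Icc.1 hd
    have hd0 : (0 : ℝ) < d := by exact_mod_cast hh1
    have hdY : (d : ℝ) ≤ Y := (Nat.le_floor_iff hY).1 hh2
    rw [norm_mul, norm_mul]
    have a1 : ‖((ArithmeticFunction.vonMangoldt d : ℝ) : ℂ)‖ ≤ Y := by
      rw [Complex.norm_real, Real.norm_of_nonneg ArithmeticFunction.vonMangoldt_nonneg]
      refine ArithmeticFunction.vonMangoldt_le_log.trans ?_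
      have h2 := log_le_nat d
      rw [Complex.norm_real, Real.norm_eq_abs] at h2
      exact (le_abs_self _).trans (h2.trans hdY)
    have a2 := DirichletCharacter.norm_le_one χ (d : ZMod q)
    have a3 := FF_small hq χ h1 hχ y b hb m hm (d * x) δ (by positivity) (by
      refine le_trans ?_ hδ
      gcongr)
    calc ‖((ArithmeticFunction.vonMangoldt d : ℝ) : ℂ)‖ * ‖χ (d : ZMod q)‖ * ‖FF χ y b (d * x)‖ ≤
          Y * 1 * (y * (2 * m.factorial * (Real.sqrt q * δ ^ (2 * m - 1)))) := by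
          gcongr
      _ = _ := by ring
  refine (Finset.sum_le_card_nsmul _ _ _ key).trans ?_
  rw [nsmul_eq_mul, Nat.card_Icc, Nat.add_sub_cancel]
  exact mul_le_mul_of_nonneg_right (Nat.floor_le hY) (by positivity)

/-- the first sum of `JJ` -/
theorem fst_small {q : ℕ} (χ : DirichletCharacter ℂ q) {C : ℝ} (hC : 0 < C)
    (hTL : ∀ x : ℝ, 0 < x → x ≤ 1 → ‖tl χ x‖ ≤ C * q * x ^ (-(1 / 16) : ℝ))
    (y : ℕ) (b : ℕ → ℂ) (hb : ∀ h, ‖b h‖ ≤ 1) (x : ℝ) (hx : 0 < x) (hyx : y * x ≤ 1) :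
    ‖∑ h ∈ Finset.Icc 1 y, b h * χ (h : ZMod q) * tl χ (h * x)‖ ≤ y * (C * q * x ^ (-(1 / 16) : ℝ)) := by
  refine (norm_sum_le _ _).trans ?_
  have key : ∀ h ∈ Finset.Icc 1 y, ‖b h * χ (h : ZMod q) * tl χ (h * x)‖ ≤ C * q * x ^ (-(1 / 16) : ℝ) := by
    intro h hh
    obtain ⟨hh1, hh2⟩ := Finset.mem_Icc.1 hh
    have hh0 : (0 : ℝ) < h := by exact_mod_cast hh1
    have hh1' : (1 : ℝ) ≤ h := by exact_mod_cast hh1
    have hhy : (h : ℝ) ≤ y := by exact_mod_cast hh2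
    rw [norm_mul, norm_mul]
    have a2 := DirichletCharacter.norm_le_one χ (h : ZMod q)
    have a3 := hTL (h * x) (by positivity) ((mul_le_mul_of_nonneg_right hhy hx.le).trans hyx)
    have a4 : (h * x) ^ (-(1 / 16) : ℝ) ≤ x ^ (-(1 / 16) : ℝ) :=
      Real.rpow_le_rpow_of_nonpos hx (by nlinarith) (by norm_num)
    calc ‖b h‖ * ‖χ (h : ZMod q)‖ * ‖tl χ (h * x)‖ ≤ 1 * 1 * (C * q * x ^ (-(1 / 16) : ℝ)) := by
          gcongr
          · exact hb h
          · exact a3.trans (mul_le_mul_of_nonneg_left a4 (by positivity))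
      _ = _ := by ring
  refine (Finset.sum_le_card_nsmul _ _ _ key).trans (le_of_eq ?_)
  rw [nsmul_eq_mul, Nat.card_Icc, Nat.add_sub_cancel]

/-- the combination of the two ranges -/
theorem split_sq {J H : ℂ} {ρ x x1 x2 : ℝ} (h12 : x2 ≤ x1) (hρ : 0 ≤ ρ ∧ ρ ≤ 1) (h0 : x ≤ x2 → ρ = 0)
    (h1 : x1 ≤ x → ρ = 1) {A B : ℝ} (hA : 0 ≤ A) (hB : 0 ≤ B) (kA : x ≤ x1 → 2 * ‖J‖ ^ 2 ≤ A)
    (kB : x2 < x → 2 * ‖J - H‖ ^ 2 ≤ B) : ‖J - (ρ : ℂ) * H‖ ^ 2 ≤ (if x ≤ x1 then A else 0) + (if x2 < x then B else 0) := by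
  rcases le_or_gt x x2 with hx2 | hx2
  · rw [if_pos (hx2.trans h12), if_neg (not_lt.2 hx2), h0 hx2]
    have := kA (hx2.trans h12)
    rw [Complex.ofReal_zero, zero_mul, sub_zero]
    nlinarith [sq_nonneg ‖J‖]
  · rw [if_pos hx2]
    rcases le_or_gt x x1 with hx1 | hx1
    · rw [if_pos hx1]
      have a := kA hx1
      have c := kB hx2
      have e : J - (ρ : ℂ) * H = ((1 - ρ : ℝ) : ℂ) * J + (ρ : ℂ) * (J - H) := by push_cast; ring
      have n1 : ‖J - (ρ : ℂ) * H‖ ≤ ‖J‖ + ‖J - H‖ := by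
        rw [e]
        refine (norm_add_le _ _).trans ?_
        rw [norm_mul, norm_mul, Complex.norm_real, Complex.norm_real, Real.norm_of_nonneg (by linarith [hρ.2]),
          Real.norm_of_nonneg hρ.1]
        have := norm_nonneg J
        have := norm_nonneg (J - H)
        nlinarith [hρ.1, hρ.2]
      have n2 := pow_le_pow_left₀ (norm_nonneg _) n1 2
      nlinarith [sq_nonneg (‖J‖ - ‖J - H‖)]
    · rw [if_neg (not_le.2 hx1), h1 hx1.le]
      have c := kB hx2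
      rw [Complex.ofReal_one, one_mul]
      nlinarith [sq_nonneg ‖J - H‖]

theorem int_small {x1 r : ℝ} (h0 : 0 < x1) (hr : -1 < r) :
    IntegrableOn (fun x : ℝ => x ^ r) (Ioc 0 x1) ∧ ∫ x in Ioc 0 x1, x ^ r = x1 ^ (r + 1) / (r + 1) := by
  refine ⟨(intervalIntegrable_iff_integrableOn_Ioc_of_le h0.le).1 (intervalIntegral.intervalIntegrable_rpow' hr), ?_⟩
  rw [← intervalIntegral.integral_of_le h0.le, integral_rpow (Or.inl hr), Real.zero_rpow (by linarith), sub_zero]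

theorem rem (hTL : S_TL) : S_R := by
  obtain ⟨C, hC, hTL⟩ := hTL
  intro B ε hB hε hε1
  obtain ⟨m, hm⟩ := exists_nat_ge (16 * (B + 2) / ε + 3)
  have hm' : 16 * (B + 2) + 3 * ε ≤ ε * m := by
    have h1 := mul_le_mul_of_nonneg_left hm hε.le
    have h2 : ε * (16 * (B + 2) / ε + 3) = 16 * (B + 2) + 3 * ε := by field_simp
    linarith
  have hm3 : 3 ≤ m := by
    have h1 : (3 : ℝ) ≤ m := by
      have : 0 ≤ 16 * (B + 2) / ε := by positivity
      linarith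
    exact_mod_cast h1
  obtain ⟨M₂, hM₂⟩ : ∃ M₂ : ℝ, M₂ = 2 * m.factorial := ⟨_, rfl⟩
  have hM₂0 : 0 ≤ M₂ := by rw [hM₂]; positivity
  refine ⟨4 * C ^ 2 * 2 + 4 * M₂ ^ 2 * 2 + 32 * (m.factorial : ℝ) ^ 2 + 1, by positivity, 2, ?_⟩
  intro q _ hq _ χ hχ y b Y Y' κ ρ hy1 hy hy100 hb hs hY hYY hY' hκ hκ' _ hρ hρ0 hρ1
  obtain ⟨hχ1, hχe⟩ := ev_mem hχ
  obtain ⟨hT1, -, -⟩ := hTL q hq χ hχ1 hχe
  have hq0 : (0 : ℝ) < q := by exact_mod_cast NeZero.pos q
  have hq1 : (1 : ℝ) < q := by exact_mod_cast hq.one_lt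
  obtain ⟨L, hL⟩ : ∃ L : ℝ, L = Real.log q := ⟨_, rfl⟩
  have hL0 : 0 < L := by rw [hL]; exact Real.log_pos hq1
  have eq : (q : ℝ) = Real.exp L := by rw [hL, Real.exp_log hq0]
  have erp : ∀ r : ℝ, (q : ℝ) ^ r = Real.exp (r * L) := fun r => by
    rw [Real.rpow_def_of_pos hq0, hL, mul_comm]
  have hY0 : 0 < Y := lt_of_lt_of_le (by positivity) hY
  obtain ⟨lY, hlY⟩ : ∃ lY : ℝ, lY = Real.log Y := ⟨_, rfl⟩
  have eY : Y = Real.exp lY := by rw [hlY, Real.exp_log hY0]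
  have hlY2 : 2 * L ≤ lY := by
    have h1 : Real.exp (2 * L) ≤ Real.exp lY := by
      rw [← eY]
      refine le_trans (le_of_eq ?_) hY
      rw [eq, ← Real.exp_nat_mul]
      push_cast
      ring_nf
    exact Real.exp_le_exp.1 h1
  have hY'1 : Real.exp (lY + (1 + ε) * L) ≤ Y' := by
    refine le_trans (le_of_eq ?_) hYY
    rw [erp, eY, ← Real.exp_add]
  have hYY1 : Y ≤ Y' := by
    refine le_trans ?_ hY'1
    rw [eY]
    apply Real.exp_le_exp.2
    nlinarith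
  have hlYB : lY + (1 + ε) * L ≤ B * L := by
    have h1 : Real.exp (lY + (1 + ε) * L) ≤ Real.exp (B * L) := by
      rw [← erp]
      exact hY'1.trans hY'
    exact Real.exp_le_exp.1 h1
  rw [← hL, ← hlY] at hρ0 hρ1
  obtain ⟨x1, hx1⟩ : ∃ x1 : ℝ, x1 = Real.exp (-(lY + (1 + ε / 4) * L)) := ⟨_, rfl⟩
  obtain ⟨x2, hx2⟩ : ∃ x2 : ℝ, x2 = Real.exp (-(lY + (1 + 3 * ε / 8) * L)) := ⟨_, rfl⟩
  rw [← hx2] at hρ0
  rw [← hx1] at hρ1
  have x10 : 0 < x1 := by rw [hx1]; exact Real.exp_pos _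
  have x20 : 0 < x2 := by rw [hx2]; exact Real.exp_pos _
  have x21 : x2 ≤ x1 := by
    rw [hx1, hx2]
    apply Real.exp_le_exp.2
    nlinarith [mul_pos hε hL0]
  have x11 : x1 ≤ 1 := by
    rw [hx1]
    apply Real.exp_le_one_iff.2
    nlinarith [mul_pos hε hL0]
  have x22 : x2 ≤ 1 := x21.trans x11
  have hyL : (y : ℝ) ≤ Real.exp (ε / 8 * L) := by
    rw [← erp]
    exact hy
  have hy0 : (0 : ℝ) ≤ y := Nat.cast_nonneg y
  -- the square of `y`
  have hy2 : (y : ℝ) ^ 2 ≤ Real.exp (L / 4) := by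
    have h8 : y ^ 8 ≤ q := (Nat.pow_le_pow_right hy1 (by norm_num)).trans hy100
    have h8' : (y : ℝ) ^ 8 ≤ q := by exact_mod_cast h8
    have h4 : ((y : ℝ) ^ 2) ^ 4 ≤ Real.exp (L / 4) ^ 4 := by
      rw [← pow_mul, ← Real.exp_nat_mul]
      refine h8'.trans (le_of_eq ?_)
      rw [eq]
      congr 1
      push_cast
      ring
    exact le_of_pow_le_pow_left₀ (n := 4) (by norm_num) (Real.exp_pos _).le h4
  -- the bound of `JJ`
  have kJ : ∀ x, 0 < x → x ≤ x1 → ‖JJ χ y b Y x‖ ≤ y * (C * q * x ^ (-(1 / 16) : ℝ)) + M₂ := by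
    intro x hx hxx
    unfold JJ
    refine (norm_sub_le _ _).trans (add_le_add ?_ ?_)
    · refine fst_small χ hC hT1 y b hb x hx ?_
      calc (y : ℝ) * x ≤ Real.exp (ε / 8 * L) * x1 := mul_le_mul hyL hxx hx.le (Real.exp_pos _).le
        _ ≤ 1 := by
          rw [hx1, ← Real.exp_add]
          apply Real.exp_le_one_iff.2
          nlinarith [mul_pos hε hL0]
    · have hd := snd_small hq χ hχ1 hχe y b hb m (by omega) Y x (Real.exp (-(ε / 8 * L))) hx hY0.le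
        (Real.exp_pos _).le (by
          calc (q : ℝ) * (y * (Y * x)) ≤ q * (Real.exp (ε / 8 * L) * (Y * x1)) := by gcongr
            _ = Real.exp (-(ε / 8 * L)) := by
              rw [eq, eY, hx1, ← Real.exp_add, ← Real.exp_add, ← Real.exp_add]
              congr 1
              ring)
      refine hd.trans ?_
      have hsq : Real.sqrt q ≤ Real.exp L := by
        rw [Real.sqrt_le_left (Real.exp_pos _).le, ← eq]
        nlinarith
      have hdp : Real.exp (-(ε / 8 * L)) ^ (2 * m - 1) = Real.exp (-((2 * (m : ℝ) - 1) * (ε / 8 * L))) := by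
        rw [← Real.exp_nat_mul]
        congr 1
        rw [Nat.cast_sub (by omega)]
        push_cast
        ring
      rw [hdp, hM₂]
      calc Y * (Y * (y * (2 * m.factorial * (Real.sqrt q * Real.exp (-((2 * (m : ℝ) - 1) * (ε / 8 * L)))))))
          ≤ Real.exp lY * (Real.exp lY * (Real.exp (ε / 8 * L) * (2 * m.factorial * (Real.exp L *
            Real.exp (-((2 * (m : ℝ) - 1) * (ε / 8 * L))))))) := by
            rw [← eY]
            gcongr
        _ = 2 * m.factorial * (Real.exp lY * Real.exp lY * Real.exp (ε / 8 * L) * Real.exp L *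
            Real.exp (-((2 * (m : ℝ) - 1) * (ε / 8 * L)))) := by ring
        _ ≤ 2 * m.factorial * 1 := by
            apply mul_le_mul_of_nonneg_left _ (by positivity)
            rw [← Real.exp_add, ← Real.exp_add, ← Real.exp_add, ← Real.exp_add]
            apply Real.exp_le_one_iff.2
            have h5 : ε * m * L ≥ (16 * (B + 2) + 3 * ε) * L := mul_le_mul_of_nonneg_right hm' hL0.le
            nlinarith [mul_pos hε hL0]
        _ = _ := by ring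
  -- pointwise bounds
  obtain ⟨gA, hgA⟩ : ∃ gA : ℝ → ℝ, gA = fun x => 4 * C ^ 2 * (y ^ 2 * q ^ 2) * x ^ (-(3 / 16) : ℝ) +
    4 * M₂ ^ 2 * x ^ (-(1 / 16) : ℝ) := ⟨_, rfl⟩
  obtain ⟨D, hD⟩ : ∃ D : ℝ, D = 32 * (m.factorial : ℝ) ^ 2 * (x2⁻¹ ^ 9 *
    Real.exp (-((4 * (m : ℝ) - 10) * (5 * ε / 8 * L)))) := ⟨_, rfl⟩
  have hD0 : 0 ≤ D := by rw [hD]; positivity
  obtain ⟨gB, hgB⟩ : ∃ gB : ℝ → ℝ, gB = fun x => D * x ^ (-2 : ℝ) := ⟨_, rfl⟩
  have hxA : ∀ x, 0 < x → x ≤ x1 → 2 * ‖JJ χ y b Y x‖ ^ 2 * x ^ (-(2 * κ)) ≤ gA x := by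
    intro x hx hxx
    have h1 := kJ x hx hxx
    have hx1' : x ≤ 1 := hxx.trans x11
    have h2 : ‖JJ χ y b Y x‖ ^ 2 ≤ (y * (C * q * x ^ (-(1 / 16) : ℝ)) + M₂) ^ 2 :=
      pow_le_pow_left₀ (norm_nonneg _) h1 2
    have h3 : (y * (C * q * x ^ (-(1 / 16) : ℝ)) + M₂) ^ 2 ≤
        2 * (C ^ 2 * (y ^ 2 * q ^ 2) * x ^ (-(1 / 8) : ℝ)) + 2 * M₂ ^ 2 := by
      have e8 : x ^ (-(1 / 8) : ℝ) = (x ^ (-(1 / 16) : ℝ)) ^ 2 := by
        rw [← Real.rpow_natCast, ← Real.rpow_mul hx.le]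
        norm_num
      rw [e8]
      nlinarith [sq_nonneg (y * (C * q * x ^ (-(1 / 16) : ℝ)) - M₂)]
    have h4 : x ^ (-(2 * κ)) ≤ x ^ (-(1 / 16) : ℝ) :=
      Real.rpow_le_rpow_of_exponent_ge hx hx1' (by linarith)
    have h5 : 0 ≤ x ^ (-(2 * κ)) := Real.rpow_nonneg hx.le _
    have h6 : x ^ (-(1 / 8) : ℝ) * x ^ (-(1 / 16) : ℝ) = x ^ (-(3 / 16) : ℝ) := by
      rw [← Real.rpow_add hx]
      norm_num
    have h7 : 0 ≤ x ^ (-(1 / 8) : ℝ) := Real.rpow_nonneg hx.le _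
    calc 2 * ‖JJ χ y b Y x‖ ^ 2 * x ^ (-(2 * κ)) ≤
          2 * (2 * (C ^ 2 * (y ^ 2 * q ^ 2) * x ^ (-(1 / 8) : ℝ)) + 2 * M₂ ^ 2) * x ^ (-(1 / 16) : ℝ) := by
          gcongr
          exact h2.trans h3
      _ = 4 * C ^ 2 * (y ^ 2 * q ^ 2) * (x ^ (-(1 / 8) : ℝ) * x ^ (-(1 / 16) : ℝ)) +
          4 * M₂ ^ 2 * x ^ (-(1 / 16) : ℝ) := by ring
      _ = gA x := by rw [h6, hgA]
  have hYx2 : Real.exp (5 * ε / 8 * L) ≤ Y' * x2 := by
    calc Real.exp (5 * ε / 8 * L) = Real.exp (lY + (1 + ε) * L) * x2 := by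
          rw [hx2, ← Real.exp_add]
          congr 1
          ring
      _ ≤ _ := mul_le_mul_of_nonneg_right hY'1 x20.le
  have hY'0 : 0 < Y' := hY0.trans_le hYY1
  have hxB : ∀ x, x2 < x → 2 * ‖JJ χ y b Y x - HH χ y b Y Y' x‖ ^ 2 * x ^ (-(2 * κ)) ≤ gB x := by
    intro x hxx
    have hx : 0 < x := x20.trans hxx
    have hYx : Real.exp (5 * ε / 8 * L) ≤ Y' * x := hYx2.trans (mul_le_mul_of_nonneg_left hxx.le hY'0.le)
    have hexp1 : 1 ≤ Real.exp (5 * ε / 8 * L) := Real.one_le_exp (by positivity)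
    have h1 := JH_le hq.one_lt χ y b hb hs Y Y' x hYY1 hx m hm3 (hexp1.trans hYx)
    have h2 : ‖JJ χ y b Y x - HH χ y b Y Y' x‖ ^ 2 ≤ (4 * (m.factorial / (x ^ 5 * (Y' * x) ^ (2 * m - 5)))) ^ 2 :=
      pow_le_pow_left₀ (norm_nonneg _) h1 2
    have h3 : (4 * (m.factorial / (x ^ 5 * (Y' * x) ^ (2 * m - 5)))) ^ 2 =
        16 * (m.factorial : ℝ) ^ 2 * (x⁻¹ ^ 10 * ((Y' * x) ^ (4 * m - 10))⁻¹) := by
      have e1 : (Y' * x) ^ (4 * m - 10) = ((Y' * x) ^ (2 * m - 5)) ^ 2 := by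
        rw [← pow_mul]
        congr 1
        omega
      rw [e1]
      field_simp
      ring
    have h4 : ((Y' * x) ^ (4 * m - 10))⁻¹ ≤ Real.exp (-((4 * (m : ℝ) - 10) * (5 * ε / 8 * L))) := by
      have e1 : Real.exp (-((4 * (m : ℝ) - 10) * (5 * ε / 8 * L))) = (Real.exp (5 * ε / 8 * L) ^ (4 * m - 10))⁻¹ := by
        rw [← Real.exp_nat_mul, ← Real.exp_neg]
        congr 1
        rw [Nat.cast_sub (by omega)]
        push_cast
        ring
      rw [e1]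
      apply inv_anti₀ (by positivity)
      exact pow_le_pow_left₀ (by positivity) hYx _
    have hinv : x⁻¹ ≤ x2⁻¹ := inv_anti₀ x20 hxx.le
    have hx0i : 0 ≤ x⁻¹ := by positivity
    have h5 : x ^ (-(2 * κ)) ≤ x2⁻¹ := by
      have hx2i : 1 ≤ x2⁻¹ := (one_le_inv₀ x20).2 x22
      rcases le_or_gt x 1 with h | h
      · refine le_trans (Real.rpow_le_rpow_of_exponent_ge hx h (show (-1 : ℝ) ≤ -(2 * κ) by linarith)) ?_
        rw [Real.rpow_neg_one]
        exact hinv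
      · exact (Real.rpow_le_one_of_one_le_of_nonpos h.le (by linarith)).trans hx2i
    have h6 : x⁻¹ ^ 10 ≤ x2⁻¹ ^ 8 * x ^ (-2 : ℝ) := by
      have e1 : x ^ (-2 : ℝ) = x⁻¹ ^ 2 := by
        rw [Real.rpow_neg hx.le, inv_pow]
        norm_num
      rw [e1]
      calc x⁻¹ ^ 10 = x⁻¹ ^ 8 * x⁻¹ ^ 2 := by ring
        _ ≤ x2⁻¹ ^ 8 * x⁻¹ ^ 2 := by gcongr
    have h7 : 0 ≤ x ^ (-2 : ℝ) := Real.rpow_nonneg hx.le _
    have h8 : 0 ≤ x ^ (-(2 * κ)) := Real.rpow_nonneg hx.le _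
    calc 2 * ‖JJ χ y b Y x - HH χ y b Y Y' x‖ ^ 2 * x ^ (-(2 * κ)) ≤
          2 * (16 * (m.factorial : ℝ) ^ 2 * ((x2⁻¹ ^ 8 * x ^ (-2 : ℝ)) *
            Real.exp (-((4 * (m : ℝ) - 10) * (5 * ε / 8 * L))))) * x2⁻¹ := by
          apply mul_le_mul _ h5 h8 (by positivity)
          apply mul_le_mul_of_nonneg_left _ (by norm_num)
          refine h2.trans ?_
          rw [h3]
          apply mul_le_mul_of_nonneg_left _ (by positivity)
          exact mul_le_mul h6 h4 (by positivity) (by positivity)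
      _ = gB x := by
          rw [hgB, hD]
          ring
  -- the integral
  obtain ⟨iA1, jA1⟩ := int_small x10 (show (-1 : ℝ) < -(3 / 16) by norm_num)
  obtain ⟨iA2, jA2⟩ := int_small x10 (show (-1 : ℝ) < -(1 / 16) by norm_num)
  have iA : IntegrableOn gA (Ioc 0 x1) := by
    rw [hgA]
    exact (iA1.const_mul _).add (iA2.const_mul _)
  have iB : IntegrableOn gB (Ioi x2) := by
    rw [hgB]
    exact (integrableOn_Ioi_rpow_of_lt (by norm_num) x20).const_mul _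
  have jA : ∫ x in Ioc 0 x1, gA x ≤ 4 * C ^ 2 * 2 + 4 * M₂ ^ 2 * 2 := by
    rw [hgA, integral_add (iA1.const_mul _) (iA2.const_mul _), integral_const_mul, integral_const_mul, jA1, jA2]
    have e1 : y ^ 2 * q ^ 2 * x1 ^ (-(3 / 16) + 1 : ℝ) ≤ (1 : ℝ) := by
      have e2 : x1 ^ (-(3 / 16) + 1 : ℝ) = Real.exp (-(lY + (1 + ε / 4) * L) * (13 / 16)) := by
        rw [hx1, ← Real.exp_mul]
        norm_num
      have e3 : (q : ℝ) ^ 2 = Real.exp (2 * L) := by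
        rw [eq, ← Real.exp_nat_mul]
        norm_num
      rw [e2, e3]
      calc (y : ℝ) ^ 2 * Real.exp (2 * L) * Real.exp (-(lY + (1 + ε / 4) * L) * (13 / 16)) ≤
            Real.exp (L / 4) * Real.exp (2 * L) * Real.exp (-(lY + (1 + ε / 4) * L) * (13 / 16)) := by gcongr
        _ ≤ 1 := by
            rw [← Real.exp_add, ← Real.exp_add]
            apply Real.exp_le_one_iff.2
            nlinarith [mul_pos hε hL0]
    have e4 : x1 ^ (-(1 / 16) + 1 : ℝ) ≤ 1 := Real.rpow_le_one x10.le x11 (by norm_num)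
    have e5 : 4 * C ^ 2 * (y ^ 2 * q ^ 2) * (x1 ^ (-(3 / 16) + 1 : ℝ) / (-(3 / 16) + 1)) ≤ 4 * C ^ 2 * 2 := by
      have : 4 * C ^ 2 * (y ^ 2 * q ^ 2) * (x1 ^ (-(3 / 16) + 1 : ℝ) / (-(3 / 16) + 1)) =
          4 * C ^ 2 * (16 / 13 * (y ^ 2 * q ^ 2 * x1 ^ (-(3 / 16) + 1 : ℝ))) := by ring
      rw [this]
      apply mul_le_mul_of_nonneg_left _ (by positivity)
      linarith
    have e6 : 4 * M₂ ^ 2 * (x1 ^ (-(1 / 16) + 1 : ℝ) / (-(1 / 16) + 1)) ≤ 4 * M₂ ^ 2 * 2 := by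
      apply mul_le_mul_of_nonneg_left _ (by positivity)
      rw [div_le_iff₀ (by norm_num)]
      linarith
    linarith
  have jB : ∫ x in Ioi x2, gB x ≤ 32 * (m.factorial : ℝ) ^ 2 := by
    rw [hgB, integral_const_mul, integral_Ioi_rpow_of_lt (by norm_num) x20]
    have e1 : -x2 ^ (-2 + 1 : ℝ) / (-2 + 1) = x2⁻¹ := by
      rw [show (-2 + 1 : ℝ) = -1 by norm_num, Real.rpow_neg_one]
      ring
    rw [e1, hD]
    have e2 : x2⁻¹ = Real.exp (lY + (1 + 3 * ε / 8) * L) := by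
      rw [hx2, ← Real.exp_neg, neg_neg]
    calc 32 * (m.factorial : ℝ) ^ 2 * (x2⁻¹ ^ 9 * Real.exp (-((4 * (m : ℝ) - 10) * (5 * ε / 8 * L)))) * x2⁻¹ =
          32 * (m.factorial : ℝ) ^ 2 * (x2⁻¹ ^ 10 * Real.exp (-((4 * (m : ℝ) - 10) * (5 * ε / 8 * L)))) := by ring
      _ ≤ 32 * (m.factorial : ℝ) ^ 2 * 1 := by
          apply mul_le_mul_of_nonneg_left _ (by positivity)
          rw [e2, ← Real.exp_nat_mul, ← Real.exp_add]
          apply Real.exp_le_one_iff.2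
          have h5 : ε * m * L ≥ (16 * (B + 2) + 3 * ε) * L := mul_le_mul_of_nonneg_right hm' hL0.le
          push_cast
          nlinarith [mul_pos hε hL0]
      _ = _ := mul_one _
  have hexp : ∀ x : ℝ, x ^ (2 * (1 / 2 - κ) - 1) = x ^ (-(2 * κ)) := fun x => by
    congr 1
    ring
  simp only [hexp]
  have hsA : Ioc 0 x1 ⊆ Ioi (0 : ℝ) := fun x hx => hx.1
  have hsB : Ioi x2 ⊆ Ioi (0 : ℝ) := fun x hx => x20.trans hx
  have iA' : IntegrableOn ((Ioc 0 x1).indicator gA) (Ioi 0) :=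
    ((integrable_indicator_iff measurableSet_Ioc).2 iA).integrableOn
  have iB' : IntegrableOn ((Ioi x2).indicator gB) (Ioi 0) :=
    ((integrable_indicator_iff measurableSet_Ioi).2 iB).integrableOn
  have hmain : ∫ x in Ioi (0 : ℝ), ‖JJ χ y b Y x - (ρ x : ℂ) * HH χ y b Y Y' x‖ ^ 2 * x ^ (-(2 * κ)) ≤
      ∫ x in Ioi (0 : ℝ), ((Ioc 0 x1).indicator gA x + (Ioi x2).indicator gB x) := by
    apply integral_mono_of_nonneg
    · filter_upwards [ae_restrict_mem measurableSet_Ioi] with x hx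
      exact mul_nonneg (sq_nonneg _) (Real.rpow_nonneg (le_of_lt hx) _)
    · exact iA'.add iB'
    · filter_upwards [ae_restrict_mem measurableSet_Ioi] with x hx
      have hx0 : 0 < x := hx
      have hp : 0 < x ^ (-(2 * κ)) := Real.rpow_pos_of_pos hx0 _
      have hsp := split_sq (J := JJ χ y b Y x) (H := HH χ y b Y Y' x) (A := gA x / x ^ (-(2 * κ)))
        (B := gB x / x ^ (-(2 * κ))) x21 (hρ x) (fun h => hρ0 x hx0 h) (fun h => hρ1 x h) (by
          rw [hgA]; positivity) (by rw [hgB]; positivity)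
        (fun h => by rw [le_div_iff₀ hp]; exact hxA x hx0 h) (fun h => by rw [le_div_iff₀ hp]; exact hxB x h)
      have := mul_le_mul_of_nonneg_right hsp hp.le
      refine this.trans (le_of_eq ?_)
      rw [add_mul]
      congr 1
      · by_cases h : x ≤ x1
        · rw [if_pos h, indicator_of_mem (show x ∈ Ioc 0 x1 from ⟨hx0, h⟩), div_mul_cancel₀ _ hp.ne']
        · rw [if_neg h, indicator_of_notMem (fun h' => h h'.2), zero_mul]
      · by_cases h : x2 < x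
        · rw [if_pos h, indicator_of_mem (show x ∈ Ioi x2 from h), div_mul_cancel₀ _ hp.ne']
        · rw [if_neg h, indicator_of_notMem (show x ∉ Ioi x2 from h), zero_mul]
  refine hmain.trans ?_
  rw [integral_add iA' iB', setIntegral_indicator measurableSet_Ioc, setIntegral_indicator measurableSet_Ioi,
    inter_eq_self_of_subset_right hsA, inter_eq_self_of_subset_right hsB]
  linarith

end Pool.Agent.D0H65.MW
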