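import Pool.Agent.D0H44.MW.Stm2
import Pool.Agent.D0H44.MW.Sm

/-! Project MW, P9: the coefficients of the remainder. -/

set_option autoImplicit false
open Complex Filter Topology MeasureTheory Set
open Pool.Agent.H24R2.DZ (cc rr bb MM)
open Pool.Agent.D0H44.MW

namespace Pool.Agent.D0H65.MW

/-- Theta series without small coefficients. -/
theorem gap_bound {a : ℕ → ℂ} {N : ℝ} (h0 : ∀ n : ℕ, (n : ℝ) ≤ N → a n = 0)
    (h : ∀ n : ℕ, ‖a n‖ ≤ 2 * (n : ℝ) ^ 3) (m : ℕ) (hm : 3 ≤ m) (x : ℝ) (hx : 0 < x) (hNx : 1 ≤ N * x) :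
    ‖TS a x‖ ≤ 4 * (m.factorial / (x ^ 5 * (N * x) ^ (2 * m - 5))) := by
  have hN : 0 < N := by
    by_contra hc
    push Not at hc
    nlinarith
  have hterm : ∀ n : ℕ, ‖a n * (ga n x : ℂ)‖ ≤
      (2 * m.factorial / (x ^ 5 * (N * x) ^ (2 * m - 5))) * ((n : ℝ) ^ 2)⁻¹ := by
    intro n
    rcases le_or_gt (n : ℝ) N with hn | hn
    · rw [h0 n hn, zero_mul, norm_zero]
      positivity
    · have hn0 : (0 : ℝ) < n := hN.trans hn
      have hn1 : 1 ≤ n := by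
        have : 0 < n := by exact_mod_cast hn0
        exact this
      rw [norm_mul, Complex.norm_real, Real.norm_of_nonneg (ga_pos n x).le]
      have e1 : (n * x) ^ (2 * m) = (n * x) ^ 5 * (n * x) ^ (2 * m - 5) := by
        rw [← pow_add]
        congr 1
        omega
      have e2 : (N * x) ^ (2 * m - 5) ≤ (n * x) ^ (2 * m - 5) :=
        pow_le_pow_left₀ (by positivity) (mul_le_mul_of_nonneg_right hn.le hx.le) _
      calc ‖a n‖ * ga n x ≤ (2 * (n : ℝ) ^ 3) * ((m.factorial : ℝ) / (n * x) ^ (2 * m)) :=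
            mul_le_mul (h n) (ga_pow m n x hn1 hx) (ga_pos n x).le (by positivity)
        _ ≤ (2 * (n : ℝ) ^ 3) * ((m.factorial : ℝ) / ((n * x) ^ 5 * (N * x) ^ (2 * m - 5))) := by
            rw [e1]
            gcongr
        _ = _ := by
            rw [mul_pow]
            field_simp
  have h1 := tsum_of_norm_bounded
    ((sum_inv_sq.1.mul_left (2 * m.factorial / (x ^ 5 * (N * x) ^ (2 * m - 5)))).hasSum) hterm
  rw [tsum_mul_left] at h1
  refine h1.trans ?_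
  have h2 := mul_le_mul_of_nonneg_left sum_inv_sq.2
    (show 0 ≤ 2 * (m.factorial : ℝ) / (x ^ 5 * (N * x) ^ (2 * m - 5)) by positivity)
  refine h2.trans (le_of_eq ?_)
  ring

theorem log_conv (b : ℕ → ℂ) (n : ℕ) (hn : n ≠ 0) :
    ∑ d ∈ n.divisors, (ArithmeticFunction.vonMangoldt d : ℂ) * cc b (n / d) =
      ∑ h ∈ n.divisors, b h * (Real.log ((n / h : ℕ) : ℝ) : ℂ) := by
  unfold cc
  simp only [Finset.mul_sum]
  rw [Finset.sum_comm' (s' := fun h => (n / h).divisors) (t' := n.divisors)]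
  · refine Finset.sum_congr rfl fun h _ => ?_
    rw [← ArithmeticFunction.vonMangoldt_sum]
    push_cast
    rw [Finset.mul_sum]
    exact Finset.sum_congr rfl fun d _ => mul_comm _ _
  · intro d h
    simp only [Nat.mem_divisors]
    constructor
    · rintro ⟨⟨⟨e, he⟩, -⟩, ⟨f, hf⟩, -⟩
      have hd0 : 0 < d := by
        rcases Nat.eq_zero_or_pos d with h0 | h0
        · rw [h0, zero_mul] at he; exact (hn he).elim
        · exact h0
      rw [he, Nat.mul_div_cancel_left _ hd0] at hf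
      have hn2 : n = h * (d * f) := by rw [he, hf]; ring
      have hh0 : 0 < h := by
        rcases Nat.eq_zero_or_pos h with h0 | h0
        · rw [h0, zero_mul] at hn2; exact (hn hn2).elim
        · exact h0
      have e2 : n / h = d * f := by rw [hn2, Nat.mul_div_cancel_left _ hh0]
      refine ⟨⟨⟨f, e2⟩, ?_⟩, ⟨d * f, hn2⟩, hn⟩
      rw [e2]
      intro h0
      rw [h0, mul_zero] at hn2
      exact hn hn2
    · rintro ⟨⟨⟨f, hf⟩, -⟩, ⟨e, he⟩, -⟩
      have hh0 : 0 < h := by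
        rcases Nat.eq_zero_or_pos h with h0 | h0
        · rw [h0, zero_mul] at he; exact (hn he).elim
        · exact h0
      rw [he, Nat.mul_div_cancel_left _ hh0] at hf
      have hn2 : n = d * (h * f) := by rw [he, hf]; ring
      have hd0 : 0 < d := by
        rcases Nat.eq_zero_or_pos d with h0 | h0
        · rw [h0, zero_mul] at hn2; exact (hn hn2).elim
        · exact h0
      have e2 : n / d = h * f := by rw [hn2, Nat.mul_div_cancel_left _ hd0]
      refine ⟨⟨⟨h * f, hn2⟩, hn⟩, ⟨f, e2⟩, ?_⟩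
      rw [e2]
      intro h0
      rw [h0, mul_zero] at hn2
      exact hn hn2

/-- the coefficients of the remainder -/
noncomputable def ae {q : ℕ} (χ : DirichletCharacter ℂ q) (y : ℕ) (b : ℕ → ℂ) (M n : ℕ) : ℂ :=
  ∑ d ∈ (Finset.Icc 1 y).filter (fun d => d ∣ n),
      (b d * χ (d : ZMod q)) * (χ ((n / d : ℕ) : ZMod q) * (Real.log ((n / d : ℕ) : ℝ) : ℂ)) -
    ∑ d ∈ (Finset.Icc 1 M).filter (fun d => d ∣ n),
      ((ArithmeticFunction.vonMangoldt d : ℂ) * χ (d : ZMod q)) * (χ ((n / d : ℕ) : ZMod q) * cc b (n / d))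

theorem filter_sub {y n : ℕ} (hn : n ≠ 0) : (Finset.Icc 1 y).filter (fun d => d ∣ n) ⊆ n.divisors := by
  intro d hd
  rw [Finset.mem_filter] at hd
  exact Nat.mem_divisors.2 ⟨hd.2, hn⟩

theorem ae_zero {q : ℕ} (χ : DirichletCharacter ℂ q) (y : ℕ) (b : ℕ → ℂ)
    (hs : ∀ h, y < h → b h = 0) (M n : ℕ) (hnM : n ≤ M) (hn : n ≠ 0) : ae χ y b M n = 0 := by
  unfold ae
  have h1 : ∑ d ∈ (Finset.Icc 1 y).filter (fun d => d ∣ n),
      (b d * χ (d : ZMod q)) * (χ ((n / d : ℕ) : ZMod q) * (Real.log ((n / d : ℕ) : ℝ) : ℂ)) =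
      χ (n : ZMod q) * ∑ d ∈ n.divisors, b d * (Real.log ((n / d : ℕ) : ℝ) : ℂ) := by
    rw [Finset.mul_sum]
    have e : ∀ d ∈ (Finset.Icc 1 y).filter (fun d => d ∣ n),
        (b d * χ (d : ZMod q)) * (χ ((n / d : ℕ) : ZMod q) * (Real.log ((n / d : ℕ) : ℝ) : ℂ)) =
        χ (n : ZMod q) * (b d * (Real.log ((n / d : ℕ) : ℝ) : ℂ)) := by
      intro d hd
      have hdn : d ∣ n := (Finset.mem_filter.1 hd).2
      have e2 : χ (d : ZMod q) * χ ((n / d : ℕ) : ZMod q) = χ (n : ZMod q) := by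
        rw [← map_mul, ← Nat.cast_mul, Nat.mul_div_cancel' hdn]
      rw [← e2]
      ring
    rw [Finset.sum_congr rfl e]
    refine Finset.sum_subset (filter_sub hn) ?_
    intro d hd hd2
    have : b d = 0 := by
      apply hs
      by_contra hle
      push Not at hle
      apply hd2
      rw [Finset.mem_filter, Finset.mem_Icc]
      exact ⟨⟨Nat.pos_of_mem_divisors hd, hle⟩, Nat.dvd_of_mem_divisors hd⟩
    rw [this, zero_mul, mul_zero]
  have h2 : ∑ d ∈ (Finset.Icc 1 M).filter (fun d => d ∣ n),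
      ((ArithmeticFunction.vonMangoldt d : ℂ) * χ (d : ZMod q)) * (χ ((n / d : ℕ) : ZMod q) * cc b (n / d)) =
      χ (n : ZMod q) * ∑ d ∈ n.divisors, (ArithmeticFunction.vonMangoldt d : ℂ) * cc b (n / d) := by
    rw [Finset.mul_sum]
    have e0 : (Finset.Icc 1 M).filter (fun d => d ∣ n) = n.divisors := by
      apply Finset.Subset.antisymm (filter_sub hn)
      intro d hd
      rw [Finset.mem_filter, Finset.mem_Icc]
      exact ⟨⟨Nat.pos_of_mem_divisors hd, (Nat.divisor_le hd).trans hnM⟩, Nat.dvd_of_mem_divisors hd⟩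
    rw [e0]
    refine Finset.sum_congr rfl fun d hd => ?_
    have hdn : d ∣ n := Nat.dvd_of_mem_divisors hd
    have e2 : χ (d : ZMod q) * χ ((n / d : ℕ) : ZMod q) = χ (n : ZMod q) := by
      rw [← map_mul, ← Nat.cast_mul, Nat.mul_div_cancel' hdn]
    rw [← e2]
    ring
  rw [h1, h2, log_conv b n hn, sub_self]

theorem log_le_nat (n : ℕ) : ‖((Real.log (n : ℝ) : ℝ) : ℂ)‖ ≤ n := by
  rw [Complex.norm_real, Real.norm_eq_abs]
  rcases Nat.eq_zero_or_pos n with h | h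
  · rw [h]; simp
  · have h1 : (1 : ℝ) ≤ n := by exact_mod_cast h
    rw [abs_of_nonneg (Real.log_nonneg h1)]
    have := Real.log_le_sub_one_of_pos (by linarith : (0 : ℝ) < n)
    linarith

theorem cc_le {b : ℕ → ℂ} (hb : ∀ h, ‖b h‖ ≤ 1) (n : ℕ) : ‖cc b n‖ ≤ n := by
  unfold cc
  refine (norm_sum_le _ _).trans ((Finset.sum_le_card_nsmul _ _ _ fun d _ => hb d).trans ?_)
  rw [nsmul_eq_mul, mul_one]
  exact_mod_cast Nat.card_divisors_le_self n

theorem fst_le {q : ℕ} (χ : DirichletCharacter ℂ q) (y : ℕ) {b : ℕ → ℂ} (hb : ∀ h, ‖b h‖ ≤ 1) (n : ℕ) :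
    ‖∑ d ∈ (Finset.Icc 1 y).filter (fun d => d ∣ n),
      (b d * χ (d : ZMod q)) * (χ ((n / d : ℕ) : ZMod q) * (Real.log ((n / d : ℕ) : ℝ) : ℂ))‖ ≤
      1 * (n : ℝ) ^ 2 := by
  rcases Nat.eq_zero_or_pos n with h0 | h0
  · subst h0
    simp
  · have hn : n ≠ 0 := h0.ne'
    refine (norm_sum_le _ _).trans ?_
    have h1 : ∀ d ∈ (Finset.Icc 1 y).filter (fun d => d ∣ n),
        ‖(b d * χ (d : ZMod q)) * (χ ((n / d : ℕ) : ZMod q) * (Real.log ((n / d : ℕ) : ℝ) : ℂ))‖ ≤ n := by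
      intro d _
      rw [norm_mul, norm_mul, norm_mul]
      have a1 := hb d
      have a2 := DirichletCharacter.norm_le_one χ (d : ZMod q)
      have a3 := DirichletCharacter.norm_le_one χ ((n / d : ℕ) : ZMod q)
      have a4 := log_le_nat (n / d)
      have a5 : ((n / d : ℕ) : ℝ) ≤ n := by exact_mod_cast Nat.div_le_self n d
      calc ‖b d‖ * ‖χ (d : ZMod q)‖ * (‖χ ((n / d : ℕ) : ZMod q)‖ * ‖((Real.log ((n / d : ℕ) : ℝ) : ℝ) : ℂ)‖)
          ≤ 1 * 1 * (1 * n) := by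
            gcongr
            exact a4.trans a5
        _ = n := by ring
    refine (Finset.sum_le_card_nsmul _ _ _ h1).trans ?_
    rw [nsmul_eq_mul, one_mul, sq]
    refine mul_le_mul_of_nonneg_right ?_ (Nat.cast_nonneg n)
    have := (Finset.card_le_card (filter_sub (y := y) hn)).trans (Nat.card_divisors_le_self n)
    exact_mod_cast this

theorem snd_le {q : ℕ} (χ : DirichletCharacter ℂ q) (M : ℕ) {b : ℕ → ℂ} (hb : ∀ h, ‖b h‖ ≤ 1) (n : ℕ) :
    ‖∑ d ∈ (Finset.Icc 1 M).filter (fun d => d ∣ n),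
      ((ArithmeticFunction.vonMangoldt d : ℂ) * χ (d : ZMod q)) * (χ ((n / d : ℕ) : ZMod q) * cc b (n / d))‖ ≤
      1 * (n : ℝ) ^ 3 := by
  rcases Nat.eq_zero_or_pos n with h0 | h0
  · subst h0
    simp [cc]
  · have hn : n ≠ 0 := h0.ne'
    refine (norm_sum_le _ _).trans ?_
    have h1 : ∀ d ∈ (Finset.Icc 1 M).filter (fun d => d ∣ n),
        ‖((ArithmeticFunction.vonMangoldt d : ℂ) * χ (d : ZMod q)) *
          (χ ((n / d : ℕ) : ZMod q) * cc b (n / d))‖ ≤ (n : ℝ) * n := by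
      intro d hd
      rw [norm_mul, norm_mul, norm_mul]
      have hdd := Nat.divisor_le (filter_sub hn hd)
      have a1 : ‖((ArithmeticFunction.vonMangoldt d : ℝ) : ℂ)‖ ≤ n := by
        rw [Complex.norm_real, Real.norm_of_nonneg ArithmeticFunction.vonMangoldt_nonneg]
        refine ArithmeticFunction.vonMangoldt_le_log.trans ?_
        have h2 := log_le_nat d
        rw [Complex.norm_real, Real.norm_eq_abs] at h2
        have h3 : (d : ℝ) ≤ n := by exact_mod_cast hdd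
        exact (le_abs_self _).trans (h2.trans h3)
      have a2 := DirichletCharacter.norm_le_one χ (d : ZMod q)
      have a3 := DirichletCharacter.norm_le_one χ ((n / d : ℕ) : ZMod q)
      have a4 := cc_le hb (n / d)
      have a5 : ((n / d : ℕ) : ℝ) ≤ n := by exact_mod_cast Nat.div_le_self n d
      calc ‖((ArithmeticFunction.vonMangoldt d : ℝ) : ℂ)‖ * ‖χ (d : ZMod q)‖ *
            (‖χ ((n / d : ℕ) : ZMod q)‖ * ‖cc b (n / d)‖)
          ≤ n * 1 * (1 * n) := by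
            gcongr
            exact a4.trans a5
        _ = (n : ℝ) * n := by ring
    refine (Finset.sum_le_card_nsmul _ _ _ h1).trans ?_
    rw [nsmul_eq_mul, one_mul]
    have h4 : ((((Finset.Icc 1 M).filter (fun d => d ∣ n)).card : ℕ) : ℝ) ≤ n := by
      have := (Finset.card_le_card (filter_sub (y := M) hn)).trans (Nat.card_divisors_le_self n)
      exact_mod_cast this
    calc _ ≤ (n : ℝ) * (n * n) := mul_le_mul_of_nonneg_right h4 (by positivity)
      _ = (n : ℝ) ^ 3 := by ring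

theorem ae_le {q : ℕ} (χ : DirichletCharacter ℂ q) (y : ℕ) {b : ℕ → ℂ} (hb : ∀ h, ‖b h‖ ≤ 1) (M n : ℕ) :
    ‖ae χ y b M n‖ ≤ 2 * (n : ℝ) ^ 3 := by
  unfold ae
  refine (norm_sub_le _ _).trans ?_
  have h1 := fst_le χ y hb n
  have h2 := snd_le χ M hb n
  have h3 : (n : ℝ) ^ 2 ≤ (n : ℝ) ^ 3 := by
    rcases Nat.eq_zero_or_pos n with h0 | h0
    · subst h0; simp
    · have : (1 : ℝ) ≤ n := by exact_mod_cast h0
      exact pow_le_pow_right₀ this (by norm_num)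
  linarith

/-- the remainder as a theta series -/
theorem JH_eq {q : ℕ} (hq : 1 < q) (χ : DirichletCharacter ℂ q) (y : ℕ) (b : ℕ → ℂ)
    (hb : ∀ h, ‖b h‖ ≤ 1) (hs : ∀ h, y < h → b h = 0) (Y Y' x : ℝ) (hYY : Y ≤ Y') (hx : 0 < x) :
    JJ χ y b Y x - HH χ y b Y Y' x = TS (ae χ y b ⌊Y'⌋₊) x := by
  have hfl : ⌊Y⌋₊ ≤ ⌊Y'⌋₊ := Nat.floor_le_floor hYY
  have e0 : JJ χ y b Y x - HH χ y b Y Y' x =
      ∑ h ∈ Finset.Icc 1 y, b h * χ (h : ZMod q) * tl χ (h * x) -
        ∑ d ∈ Finset.Icc 1 ⌊Y'⌋₊, (ArithmeticFunction.vonMangoldt d : ℂ) * χ (d : ZMod q) *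
          FF χ y b (d * x) := by
    unfold JJ HH
    have e1 : ∀ k : ℕ, Finset.Icc 1 k = Finset.Ioc 0 k := by
      intro k
      ext j
      rw [Finset.mem_Icc, Finset.mem_Ioc]
      omega
    rw [e1 ⌊Y⌋₊, e1 ⌊Y'⌋₊, ← Finset.sum_Ioc_consecutive _ (Nat.zero_le ⌊Y⌋₊) hfl]
    ring
  have PGl : PG (fun n : ℕ => χ (n : ZMod q) * (Real.log n : ℂ)) 1 1 := by
    refine ⟨?_, fun n => ?_⟩
    · show χ ((0 : ℕ) : ZMod q) * (Real.log ((0 : ℕ) : ℝ) : ℂ) = 0
      simp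
    · rw [norm_mul, one_mul, pow_one]
      have a2 := DirichletCharacter.norm_le_one χ (n : ZMod q)
      have a4 := log_le_nat n
      calc _ ≤ 1 * (n : ℝ) := mul_le_mul a2 a4 (norm_nonneg _) zero_le_one
        _ = n := one_mul _
  have PGc : PG (fun n : ℕ => χ (n : ZMod q) * cc b n) 1 1 := by
    refine ⟨?_, fun n => ?_⟩
    · show χ ((0 : ℕ) : ZMod q) * cc b 0 = 0
      simp [cc]
    · rw [norm_mul, one_mul, pow_one]
      have a2 := DirichletCharacter.norm_le_one χ (n : ZMod q)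
      calc _ ≤ 1 * (n : ℝ) := mul_le_mul a2 (cc_le hb n) (norm_nonneg _) zero_le_one
        _ = n := one_mul _
  have c1 := TS_comb PGl zero_le_one (Finset.Icc 1 y) (fun d hd => (Finset.mem_Icc.1 hd).1)
    (fun h => b h * χ (h : ZMod q)) x hx
  have c2 := TS_comb PGc zero_le_one (Finset.Icc 1 ⌊Y'⌋₊) (fun d hd => (Finset.mem_Icc.1 hd).1)
    (fun d => (ArithmeticFunction.vonMangoldt d : ℂ) * χ (d : ZMod q)) x hx
  rw [e0]
  have f1 : ∑ h ∈ Finset.Icc 1 y, b h * χ (h : ZMod q) * tl χ (h * x) =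
      TS (fun n => ∑ d ∈ (Finset.Icc 1 y).filter (fun d => d ∣ n),
      (b d * χ (d : ZMod q)) * (χ ((n / d : ℕ) : ZMod q) * (Real.log ((n / d : ℕ) : ℝ) : ℂ))) x := c1
  have f2 : ∑ d ∈ Finset.Icc 1 ⌊Y'⌋₊, (ArithmeticFunction.vonMangoldt d : ℂ) * χ (d : ZMod q) *
      FF χ y b (d * x) = TS (fun n => ∑ d ∈ (Finset.Icc 1 ⌊Y'⌋₊).filter (fun d => d ∣ n),
      ((ArithmeticFunction.vonMangoldt d : ℂ) * χ (d : ZMod q)) *
        (χ ((n / d : ℕ) : ZMod q) * cc b (n / d))) x := by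
    rw [← c2]
    refine Finset.sum_congr rfl fun d hd => ?_
    have hd0 : (0 : ℝ) < d := by exact_mod_cast (Finset.mem_Icc.1 hd).1
    rw [FF_TS hq χ y b hs (d * x) (by positivity)]
  rw [f1, f2]
  have P1 : PG (fun n => ∑ d ∈ (Finset.Icc 1 y).filter (fun d => d ∣ n),
      (b d * χ (d : ZMod q)) * (χ ((n / d : ℕ) : ZMod q) * (Real.log ((n / d : ℕ) : ℝ) : ℂ))) 1 2 := by
    refine ⟨?_, fst_le χ y hb⟩
    simp
  have P2 : PG (fun n => ∑ d ∈ (Finset.Icc 1 ⌊Y'⌋₊).filter (fun d => d ∣ n),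
      ((ArithmeticFunction.vonMangoldt d : ℂ) * χ (d : ZMod q)) *
        (χ ((n / d : ℕ) : ZMod q) * cc b (n / d))) 1 3 := by
    refine ⟨?_, snd_le χ ⌊Y'⌋₊ hb⟩
    simp [cc]
  have s1 := TS_summable P1 x hx
  have s2 := TS_summable P2 x hx
  unfold TS
  rw [← s1.tsum_sub s2]
  refine tsum_congr fun n => ?_
  unfold ae
  ring

theorem JH_le {q : ℕ} (hq : 1 < q) (χ : DirichletCharacter ℂ q) (y : ℕ) (b : ℕ → ℂ)
    (hb : ∀ h, ‖b h‖ ≤ 1) (hs : ∀ h, y < h → b h = 0) (Y Y' x : ℝ) (hYY : Y ≤ Y') (hx : 0 < x)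
    (m : ℕ) (hm : 3 ≤ m) (hYx : 1 ≤ Y' * x) :
    ‖JJ χ y b Y x - HH χ y b Y Y' x‖ ≤ 4 * (m.factorial / (x ^ 5 * (Y' * x) ^ (2 * m - 5))) := by
  rw [JH_eq hq χ y b hb hs Y Y' x hYY hx]
  refine gap_bound (fun n hn => ?_) (ae_le χ y hb _) m hm x hx hYx
  rcases eq_or_ne n 0 with h0 | h0
  · have := ae_le χ y hb ⌊Y'⌋₊ n
    rw [h0] at this ⊢
    norm_num at this
    exact this
  · exact ae_zero χ y b hs _ n (Nat.le_floor hn) h0

end Pool.Agent.D0H65.MW
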